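import Pool.Agent.H43.FlowEnt.Space
import Pool.Agent.H75.Brouwer.Brouwer

/-!
# MP_54b048_an: infinite entropy of all factors separating two points of a fibre
-/

set_option autoImplicit false

namespace Pool.H43.FlowEnt

open Set Topology Dynamics UniformSpace

/-- if arbitrary patterns of levels in `[a,b]` are realised along times `0, P, 2P, ...` then the
entropy is infinite -/
theorem entropy_top {Y : Type*} [MetricSpace Y] (S : Y → Y) (u : Y → ℝ)
    (hu : ∀ y z, |u y - u z| ≤ dist y z) {a b : ℝ} (hab : a < b) (P : ℕ) (hP : 0 < P)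
    (h : ∀ (m : ℕ) (c : Fin m → ℝ), (∀ j, a ≤ c j ∧ c j ≤ b) →
      ∃ y : Y, ∀ j : Fin m, u (S^[(j : ℕ) * P] y) = c j) :
    coverEntropy S univ = ⊤ := by
  classical
  rw [EReal.eq_top_iff_forall_lt]
  intro r
  -- choose the number of levels
  obtain ⟨N, hN⟩ := exists_nat_gt (Real.exp ((r + 1) * P))
  have hN0 : 0 < N := by
    have := Real.exp_pos ((r + 1) * P)
    have h2 : (0 : ℝ) < N := this.trans hN
    exact_mod_cast h2
  have hNR : (0 : ℝ) < N := by exact_mod_cast hN0
  have hPR : (0 : ℝ) < P := by exact_mod_cast hP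
  set η : ℝ := (b - a) / N with hη
  have hη0 : 0 < η := div_pos (by linarith) hNR
  let U : SetRel Y Y := {p | dist p.1 p.2 < η / 2}
  have hU : U ∈ uniformity Y := Metric.dist_mem_uniformity (by linarith)
  have hlev : ∀ i : Fin N, a ≤ a + (i : ℝ) * η ∧ a + (i : ℝ) * η ≤ b := by
    intro i
    have h1 : ((i : ℕ) : ℝ) ≤ N := by exact_mod_cast i.2.le
    refine ⟨by nlinarith [Nat.cast_nonneg (α := ℝ) (i : ℕ)], ?_⟩
    have h2 : ((i : ℕ) : ℝ) * η ≤ N * η := mul_le_mul_of_nonneg_right h1 hη0.le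
    have h3 : (N : ℝ) * η = b - a := by rw [hη]; field_simp
    linarith
  -- the nets
  have hnet : ∀ m : ℕ, ((N ^ m : ℕ) : ℕ∞) ≤ netMaxcard S univ U (m * P) := by
    intro m
    have hex : ∀ c : Fin m → Fin N, ∃ y : Y, ∀ j : Fin m,
        u (S^[(j : ℕ) * P] y) = a + ((c j : ℕ) : ℝ) * η :=
      fun c => h m (fun j => a + ((c j : ℕ) : ℝ) * η) fun j => hlev (c j)
    choose y hy using hex
    have hsep : ∀ c c' : Fin m → Fin N, c ≠ c' →
        Disjoint (ball (y c) (dynEntourage S U (m * P))) (ball (y c') (dynEntourage S U (m * P))) := by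
      intro c c' hcc
      rw [Set.disjoint_left]
      intro z hz hz'
      apply hcc
      funext j
      by_contra hj
      have hlt : (j : ℕ) * P < m * P := Nat.mul_lt_mul_of_pos_right j.2 hP
      have h1 : dist (S^[(j : ℕ) * P] (y c)) (S^[(j : ℕ) * P] z) < η / 2 :=
        mem_ball_dynEntourage.mp hz _ hlt
      have h2 : dist (S^[(j : ℕ) * P] (y c')) (S^[(j : ℕ) * P] z) < η / 2 :=
        mem_ball_dynEntourage.mp hz' _ hlt
      have h3 : dist (S^[(j : ℕ) * P] (y c)) (S^[(j : ℕ) * P] (y c')) < η := by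
        have := dist_triangle_right (S^[(j : ℕ) * P] (y c)) (S^[(j : ℕ) * P] (y c'))
          (S^[(j : ℕ) * P] z)
        linarith
      have h4 := hu (S^[(j : ℕ) * P] (y c)) (S^[(j : ℕ) * P] (y c'))
      rw [hy c j, hy c' j] at h4
      have h5 : a + ((c j : ℕ) : ℝ) * η - (a + ((c' j : ℕ) : ℝ) * η) =
          (((c j : ℕ) : ℝ) - ((c' j : ℕ) : ℝ)) * η := by ring
      rw [h5, abs_mul, abs_of_pos hη0] at h4
      have h6 : 1 ≤ |((c j : ℕ) : ℝ) - ((c' j : ℕ) : ℝ)| := by
        have h7 : ((c j : ℕ) : ℤ) - ((c' j : ℕ) : ℤ) ≠ 0 := by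
          intro h0
          apply hj
          have h8 : (c j : ℕ) = (c' j : ℕ) := by omega
          exact Fin.ext h8
        have h9 : 1 ≤ |((c j : ℕ) : ℤ) - ((c' j : ℕ) : ℤ)| := Int.one_le_abs h7
        exact_mod_cast h9
      nlinarith
    have hinj : Function.Injective y := by
      intro c c' hyy
      by_contra hcc
      have hd := hsep c c' hcc
      rw [hyy] at hd
      have hmem : y c' ∈ ball (y c') (dynEntourage S U (m * P)) := by
        rw [mem_ball_dynEntourage]
        intro k _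
        show dist _ _ < η / 2
        rw [dist_self]
        linarith
      exact Set.disjoint_left.mp hd hmem hmem
    let s : Finset Y := Finset.univ.image y
    have hs : IsDynNetIn S univ U (m * P) (s : Set Y) := by
      refine ⟨subset_univ _, ?_⟩
      intro p hp q hq hpq
      simp only [s, Finset.coe_image, Finset.coe_univ, image_univ, mem_range] at hp hq
      obtain ⟨c, rfl⟩ := hp
      obtain ⟨c', rfl⟩ := hq
      exact hsep c c' fun h => hpq (by rw [h])
    have hcard : s.card = N ^ m := by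
      rw [Finset.card_image_of_injective _ hinj, Finset.card_univ]
      simp
    have := hs.card_le_netMaxcard
    rw [hcard] at this
    exact this
  -- growth
  have hgrow : ((Real.log N / P : ℝ) : EReal) ≤ netEntropyEntourage S univ U := by
    unfold netEntropyEntourage
    apply Frequently.le_expGrowthSup
    rw [Filter.frequently_atTop]
    intro n₀
    refine ⟨n₀ * P, Nat.le_mul_of_pos_right _ hP, ?_⟩
    have h1 : ((Real.log N / P : ℝ) : EReal) * ((n₀ * P : ℕ) : EReal) =
        ((Real.log N * n₀ : ℝ) : EReal) := by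
      have h2 : ((n₀ * P : ℕ) : EReal) = (((n₀ * P : ℕ) : ℝ) : EReal) := by
        simp
      rw [h2, ← EReal.coe_mul]
      congr 1
      push_cast
      field_simp
    rw [h1, EReal.exp_coe]
    have h3 : Real.exp (Real.log N * n₀) = ((N ^ n₀ : ℕ) : ℝ) := by
      rw [mul_comm, Real.exp_nat_mul, Real.exp_log hNR]
      push_cast
      rfl
    rw [h3, ENNReal.ofReal_natCast]
    have h4 := hnet n₀
    exact_mod_cast h4
  have hlog : r + 1 < Real.log N / P := by
    rw [lt_div_iff₀ hPR, Real.lt_log_iff_exp_lt hNR]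
    exact hN
  have h1 : (r : EReal) < ((Real.log N / P : ℝ) : EReal) := by
    exact_mod_cast (by linarith : r < Real.log N / P)
  exact lt_of_lt_of_le h1 (hgrow.trans (netEntropyEntourage_le_coverEntropy S univ hU))

theorem iter_formula {Y : Type*} (S : Y → Y) (π : XS → Y)
    (hS : ∀ x, π (flow 1 x) = S (π x)) (θ : UnitAddCircle) (n : ℕ) (h : LipS) :
    S^[n] (π (h, θ)) = π (tr n h, θ) := by
  induction n with
  | zero =>
    have : tr ((0 : ℕ) : ℝ) h = h := by
      apply Subtype.ext
      funext x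
      rw [tr_apply]
      simp
    rw [this]
    rfl
  | succ n ih =>
    rw [Function.iterate_succ', Function.comp, ih, ← hS, flow_apply]
    have h1 : ((1 : ℝ) : UnitAddCircle) = 0 := AddCircle.coe_period (1 : ℝ)
    rw [h1, add_zero]
    have h2 : tr 1 (tr (n : ℝ) h) = tr ((n + 1 : ℕ) : ℝ) h := by
      apply Subtype.ext
      funext x
      rw [tr_apply, tr_apply, tr_apply]
      have h3 : x + 1 + (n : ℝ) = x + ((n + 1 : ℕ) : ℝ) := by
        push_cast
        ring
      rw [h3]
    rw [h2]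

theorem main {Y : Type*} [MetricSpace Y] (S : Y → Y) (π : XS → Y) (hπ : Continuous π)
    (hS : ∀ x, π (flow 1 x) = S (π x)) (f g : LipS) (θ : UnitAddCircle)
    (hne : π (f, θ) ≠ π (g, θ)) : coverEntropy S univ = ⊤ := by
  set D : ℝ := dist (π (g, θ)) (π (f, θ)) with hD
  have hD0 : 0 < D := dist_pos.2 (Ne.symm hne)
  let φ : LipS → ℝ := fun h => dist (π (h, θ)) (π (f, θ))
  have hφ : Continuous φ := by
    have h1 : Continuous (fun h : LipS => π (h, θ)) :=
      hπ.comp (continuous_id.prodMk continuous_const)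
    exact h1.dist continuous_const
  obtain ⟨k, hk⟩ := window_lemma φ hφ (by linarith : 0 < D / 4)
  refine entropy_top S (fun y => dist y (π (f, θ))) (fun y z => abs_dist_sub_le _ _ _)
    (by linarith : D / 4 < 3 * D / 4) (2 * k + 1) (by omega) ?_
  intro m c hc
  let G : (Fin m → ℝ) → (Fin m → ℝ) := fun s j =>
    φ (tr ((j : ℕ) * (2 * k + 1)) (glue f g k s)) - c j
  have hGc : Continuous G := by
    refine continuous_pi fun j => ?_
    refine Continuous.sub (hφ.comp ?_) continuous_const
    exact continuous_tr.comp (continuous_const.prodMk (continuous_glue f g k m))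
  have hwin : ∀ s : Fin m → ℝ, (∀ j, 0 ≤ s j ∧ s j ≤ 1) → ∀ j : Fin m, ∀ x : ℝ, |x| ≤ k →
      (tr ((j : ℕ) * (2 * k + 1)) (glue f g k s)).1 x = (1 - s j) * f.1 x + s j * g.1 x := by
    intro s hs j x hx
    rw [tr_apply]
    exact glue_window f g k hs j hx
  obtain ⟨s, hs, hs0⟩ := Pool.Agent.H75.Brouwer.poincare_miranda (ι := Fin m) 0 1
    (fun _ => zero_le_one) G hGc.continuousOn
    (by
      intro s hs j hj
      have hs' : ∀ j, 0 ≤ s j ∧ s j ≤ 1 := fun j => ⟨hs.1 j, hs.2 j⟩
      have h1 := hk (tr ((j : ℕ) * (2 * k + 1)) (glue f g k s)) f (fun x hx => by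
        rw [hwin s hs' j x hx, hj]; simp)
      have h2 : φ f = 0 := dist_self _
      rw [h2, sub_zero] at h1
      have h3 := (abs_lt.mp h1).2
      have h4 := (hc j).1
      show φ _ - c j ≤ 0
      linarith)
    (by
      intro s hs j hj
      have hs' : ∀ j, 0 ≤ s j ∧ s j ≤ 1 := fun j => ⟨hs.1 j, hs.2 j⟩
      have h1 := hk (tr ((j : ℕ) * (2 * k + 1)) (glue f g k s)) g (fun x hx => by
        rw [hwin s hs' j x hx, hj]; simp)
      have h2 : φ g = D := rfl
      rw [h2] at h1
      have h3 := (abs_lt.mp h1).1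
      have h4 := (hc j).2
      show 0 ≤ φ _ - c j
      linarith)
  refine ⟨π (glue f g k s, θ), fun j => ?_⟩
  rw [iter_formula S π hS]
  have h1 := congrFun hs0 j
  simp only [G, Pi.zero_apply] at h1
  have h2 : (((j : ℕ) * (2 * k + 1) : ℕ) : ℝ) = ((j : ℕ) : ℝ) * (2 * (k : ℝ) + 1) := by
    push_cast; ring
  rw [h2]
  have h3 : φ (tr (((j : ℕ) : ℝ) * (2 * (k : ℝ) + 1)) (glue f g k s)) = c j := by linarith
  exact h3

end Pool.H43.FlowEnt
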