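import Mathlib

/-!
# MP_54b048_an: the phase space of 1-Lipschitz functions and the gluing construction
-/

set_option autoImplicit false

namespace Pool.H43.FlowEnt

open Set Topology

/-- the 1-Lipschitz functions `ℝ → [0,1]` -/
def Lip : Set (ℝ → ℝ) :=
  {f | (∀ t, 0 ≤ f t ∧ f t ≤ 1) ∧ ∀ s t, |f s - f t| ≤ |s - t|}

/-- the space of 1-Lipschitz functions `ℝ → [0,1]` with the topology of pointwise convergence -/
abbrev LipS : Type := ↥Lip

theorem isClosed_Lip : IsClosed Lip := by
  have h : Lip = (⋂ t : ℝ, {f : ℝ → ℝ | 0 ≤ f t ∧ f t ≤ 1}) ∩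
      ⋂ s : ℝ, ⋂ t : ℝ, {f : ℝ → ℝ | |f s - f t| ≤ |s - t|} := by
    ext f
    simp only [Lip, mem_ofPred_eq, mem_inter_iff, mem_iInter]
  rw [h]
  refine IsClosed.inter (isClosed_iInter fun t => ?_)
    (isClosed_iInter fun s => isClosed_iInter fun t => ?_)
  · exact (isClosed_le continuous_const (continuous_apply t)).inter
      (isClosed_le (continuous_apply t) continuous_const)
  · exact isClosed_le ((continuous_apply s).sub (continuous_apply t)).abs continuous_const

theorem isCompact_Lip : IsCompact Lip := by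
  refine (isCompact_univ_pi (fun _ : ℝ => isCompact_Icc (a := (0:ℝ)) (b := 1))).of_isClosed_subset
    isClosed_Lip ?_
  intro f hf t _
  exact hf.1 t

instance : CompactSpace LipS := isCompact_iff_compactSpace.mp isCompact_Lip

theorem LipS.cont (f : LipS) : Continuous f.1 := by
  refine continuous_iff_continuousAt.2 fun x => ?_
  rw [Metric.continuousAt_iff]
  intro ε hε
  refine ⟨ε, hε, fun {y} hy => ?_⟩
  rw [Real.dist_eq] at hy ⊢
  exact lt_of_le_of_lt (f.2.2 y x) hy

/-- restriction to the rationals -/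
def restr (f : LipS) : ℚ → ℝ := fun q => f.1 (q : ℝ)

theorem continuous_restr : Continuous restr :=
  continuous_pi fun q => (continuous_apply (q : ℝ)).comp continuous_subtype_val

theorem injective_restr : Function.Injective restr := by
  intro f g h
  apply Subtype.ext
  have hd : DenseRange (fun q : ℚ => (q : ℝ)) := Rat.denseRange_cast
  exact hd.equalizer f.cont g.cont (funext fun q => congrFun h q)

instance : TopologicalSpace.MetrizableSpace LipS :=
  (continuous_restr.isClosedEmbedding injective_restr).isEmbedding.metrizableSpace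

/-- translation of a function -/
def tr (t : ℝ) (f : LipS) : LipS :=
  ⟨fun x => f.1 (x + t), fun x => f.2.1 _, fun x y => by
    have := f.2.2 (x + t) (y + t)
    simpa using this⟩

theorem tr_apply (t : ℝ) (f : LipS) (x : ℝ) : (tr t f).1 x = f.1 (x + t) := rfl

theorem continuous_tr : Continuous (fun p : ℝ × LipS => tr p.1 p.2) := by
  refine Continuous.subtype_mk ?_ _
  refine continuous_pi fun x => ?_
  show Continuous (fun p : ℝ × LipS => p.2.1 (x + p.1))
  refine continuous_iff_continuousAt.2 fun p₀ => ?_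
  have h1 : Filter.Tendsto (fun p : ℝ × LipS => |p.1 - p₀.1| + |p.2.1 (x + p₀.1) -
      p₀.2.1 (x + p₀.1)|) (𝓝 p₀) (𝓝 0) := by
    have hc : Continuous (fun p : ℝ × LipS => |p.1 - p₀.1| + |p.2.1 (x + p₀.1) -
      p₀.2.1 (x + p₀.1)|) := by
      refine Continuous.add (continuous_fst.sub continuous_const).abs ?_
      exact (((continuous_apply (x + p₀.1)).comp (continuous_subtype_val.comp
        continuous_snd)).sub continuous_const).abs
    have := hc.tendsto p₀
    simpa using this
  refine tendsto_iff_dist_tendsto_zero.2 (squeeze_zero (fun _ => dist_nonneg) (fun p => ?_) h1)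
  rw [Real.dist_eq]
  have h2 := p.2.2.2 (x + p.1) (x + p₀.1)
  have h3 : |x + p.1 - (x + p₀.1)| = |p.1 - p₀.1| := by congr 1; ring
  rw [h3] at h2
  calc |p.2.1 (x + p.1) - p₀.2.1 (x + p₀.1)|
      ≤ |p.2.1 (x + p.1) - p.2.1 (x + p₀.1)| + |p.2.1 (x + p₀.1) - p₀.2.1 (x + p₀.1)| :=
        abs_sub_le _ _ _
    _ ≤ _ := by linarith

/-- the phase space -/
abbrev XS : Type := LipS × UnitAddCircle

/-- the flow: translation of the function, rotation of the circle -/
noncomputable def flow : Flow ℝ XS where
  toFun t p := (tr t p.1, p.2 + ((t : ℝ) : UnitAddCircle))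
  cont' := by
    refine Continuous.prodMk ?_ ?_
    · exact continuous_tr.comp (continuous_fst.prodMk (continuous_fst.comp continuous_snd))
    · exact (continuous_snd.comp continuous_snd).add
        ((AddCircle.continuous_mk' (1 : ℝ)).comp continuous_fst)
  map_add' := by
    intro s t p
    refine Prod.ext (Subtype.ext (funext fun x => ?_)) ?_
    · show p.1.1 (x + (s + t)) = p.1.1 (x + s + t)
      rw [add_assoc]
    · show p.2 + ((s + t : ℝ) : UnitAddCircle) = p.2 + (t : UnitAddCircle) + (s : UnitAddCircle)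
      rw [AddCircle.coe_add, add_assoc, add_comm (t : UnitAddCircle)]
  map_zero' := by
    intro p
    refine Prod.ext (Subtype.ext (funext fun x => ?_)) ?_
    · show p.1.1 (x + 0) = p.1.1 x
      rw [add_zero]
    · show p.2 + ((0 : ℝ) : UnitAddCircle) = p.2
      simp

theorem flow_apply (t : ℝ) (p : XS) : flow t p = (tr t p.1, p.2 + ((t : ℝ) : UnitAddCircle)) := rfl

/-- the rotation flow of the circle -/
noncomputable def rot : Flow ℝ UnitAddCircle where
  toFun t x := x + ((t : ℝ) : UnitAddCircle)
  cont' := continuous_snd.add ((AddCircle.continuous_mk' (1 : ℝ)).comp continuous_fst)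
  map_add' := by
    intro s t p
    show p + ((s + t : ℝ) : UnitAddCircle) = p + (t : UnitAddCircle) + (s : UnitAddCircle)
    rw [AddCircle.coe_add, add_assoc, add_comm (t : UnitAddCircle)]
  map_zero' := by
    intro p
    show p + ((0 : ℝ) : UnitAddCircle) = p
    simp

theorem half_ne_zero : (((1 / 2 : ℝ)) : UnitAddCircle) ≠ 0 := by
  intro h
  rw [AddCircle.coe_eq_zero_iff] at h
  obtain ⟨n, hn⟩ := h
  simp only [zsmul_eq_mul, mul_one] at hn
  have h1 : (2 * n : ℝ) = 1 := by rw [hn]; norm_num
  have h2 : (2 * n : ℤ) = 1 := by exact_mod_cast h1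
  omega

theorem flow_no_fixed (x : XS) : ∃ t, flow t x ≠ x := by
  refine ⟨1 / 2, fun h => ?_⟩
  have h1 : x.2 + (((1 / 2 : ℝ)) : UnitAddCircle) = x.2 := congrArg Prod.snd h
  exact half_ne_zero (by simpa using h1)

/-! ### clamping and gluing -/

/-- nearest point of `[-k,k]` -/
noncomputable def cl (k t : ℝ) : ℝ := max (-k) (min k t)

theorem cl_eq {k t : ℝ} (h : |t| ≤ k) : cl k t = t := by
  rw [abs_le] at h
  unfold cl
  rw [min_eq_right h.2, max_eq_right h.1]

theorem cl_lip {k : ℝ} (hk : 0 ≤ k) (x y : ℝ) :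
    |cl k x - cl k y| + |(x - cl k x) - (y - cl k y)| ≤ |x - y| := by
  have key : ∀ x y : ℝ, x ≤ y →
      |cl k x - cl k y| + |(x - cl k x) - (y - cl k y)| ≤ |x - y| := by
    intro x y hxy
    have h1 : cl k x ≤ cl k y := max_le_max le_rfl (min_le_min le_rfl hxy)
    have h2 : x - cl k x ≤ y - cl k y := by
      have a1 : min k y ≤ min k x + (y - x) := by
        rcases le_total k x with h | h
        · rw [min_eq_left h]; linarith [min_le_left k y]
        · rw [min_eq_right h]; linarith [min_le_right k y]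
      have a2 : max (-k) (min k y) ≤ max (-k) (min k x) + (y - x) :=
        max_le (by linarith [le_max_left (-k) (min k x)])
          (by linarith [le_max_right (-k) (min k x)])
      unfold cl
      linarith
    rw [abs_of_nonpos (by linarith), abs_of_nonpos (by linarith), abs_of_nonpos (by linarith)]
    linarith
  rcases le_total x y with h | h
  · exact key x y h
  · have := key y x h
    rw [abs_sub_comm (cl k x), abs_sub_comm (x - cl k x), abs_sub_comm x]
    exact this

theorem cl_far {k t : ℝ} (hk : 0 ≤ k) (h : k + 1 ≤ |t|) : 1 ≤ |t - cl k t| := by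
  rcases le_total 0 t with ht | ht
  · rw [abs_of_nonneg ht] at h
    have : cl k t = k := by
      unfold cl
      rw [min_eq_left (by linarith), max_eq_right (by linarith)]
    rw [this]
    exact le_trans (by linarith) (le_abs_self _)
  · rw [abs_of_nonpos ht] at h
    have : cl k t = -k := by
      unfold cl
      rw [min_eq_right (by linarith), max_eq_left (by linarith)]
    rw [this]
    exact le_trans (by linarith) (neg_le_abs _)

/-- one block -/
noncomputable def blk (f g : LipS) (k σ t : ℝ) : ℝ :=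
  (1 - σ) * f.1 (cl k t) + σ * g.1 (cl k t) - |t - cl k t|

theorem blk_lip (f g : LipS) {k σ : ℝ} (hk : 0 ≤ k) (h0 : 0 ≤ σ) (h1 : σ ≤ 1) (x y : ℝ) :
    |blk f g k σ x - blk f g k σ y| ≤ |x - y| := by
  have h2 := f.2.2 (cl k x) (cl k y)
  have h3 := g.2.2 (cl k x) (cl k y)
  have h4 := cl_lip hk x y
  have h5 : |(|y - cl k y| - |x - cl k x|)| ≤ |(x - cl k x) - (y - cl k y)| := by
    rw [abs_sub_comm (x - cl k x)]
    exact abs_abs_sub_abs_le_abs_sub _ _
  have h6 : blk f g k σ x - blk f g k σ y = (1 - σ) * (f.1 (cl k x) - f.1 (cl k y)) +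
      σ * (g.1 (cl k x) - g.1 (cl k y)) + (|y - cl k y| - |x - cl k x|) := by
    unfold blk; ring
  rw [h6]
  calc |(1 - σ) * (f.1 (cl k x) - f.1 (cl k y)) +
      σ * (g.1 (cl k x) - g.1 (cl k y)) + (|y - cl k y| - |x - cl k x|)|
      ≤ |(1 - σ) * (f.1 (cl k x) - f.1 (cl k y))| + |σ * (g.1 (cl k x) - g.1 (cl k y))| +
        |(|y - cl k y| - |x - cl k x|)| := abs_add_three _ _ _
    _ = (1 - σ) * |f.1 (cl k x) - f.1 (cl k y)| + σ * |g.1 (cl k x) - g.1 (cl k y)| +
        |(|y - cl k y| - |x - cl k x|)| := by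
        rw [abs_mul, abs_mul, abs_of_nonneg h0, abs_of_nonneg (by linarith : 0 ≤ 1 - σ)]
    _ ≤ (1 - σ) * |cl k x - cl k y| + σ * |cl k x - cl k y| +
        |(x - cl k x) - (y - cl k y)| := by
        have := mul_le_mul_of_nonneg_left h2 (by linarith : 0 ≤ 1 - σ)
        have := mul_le_mul_of_nonneg_left h3 h0
        linarith
    _ = |cl k x - cl k y| + |(x - cl k x) - (y - cl k y)| := by ring
    _ ≤ _ := h4

theorem blk_le (f g : LipS) {k σ : ℝ} (h0 : 0 ≤ σ) (h1 : σ ≤ 1) (x : ℝ) :
    blk f g k σ x ≤ 1 - |x - cl k x| := by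
  have h2 := (f.2.1 (cl k x)).2
  have h3 := (g.2.1 (cl k x)).2
  unfold blk
  nlinarith

/-- the glued function: block `j` is centred at `j * P` -/
noncomputable def glueF (f g : LipS) (k P : ℝ) {m : ℕ} (s : Fin m → ℝ) (t : ℝ) : ℝ :=
  ((Finset.univ.sup fun j : Fin m => Real.toNNReal (blk f g k (s j) (t - j * P)) : NNReal) : ℝ)

theorem glueF_mem (f g : LipS) {k P : ℝ} (hk : 0 ≤ k) {m : ℕ} {s : Fin m → ℝ}
    (hs : ∀ j, 0 ≤ s j ∧ s j ≤ 1) : glueF f g k P s ∈ Lip := by
  refine ⟨fun t => ⟨NNReal.coe_nonneg _, ?_⟩, fun x y => ?_⟩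
  · unfold glueF
    have : (Finset.univ.sup fun j : Fin m => Real.toNNReal (blk f g k (s j) (t - j * P)) : NNReal)
        ≤ 1 := by
      refine Finset.sup_le fun j _ => ?_
      rw [Real.toNNReal_le_one]
      have := blk_le f g (k := k) (hs j).1 (hs j).2 (t - j * P)
      have h2 := abs_nonneg ((t - j * P) - cl k (t - j * P))
      linarith
    exact_mod_cast this
  · have key : ∀ x y : ℝ, glueF f g k P s x ≤ glueF f g k P s y + |x - y| := by
      intro x y
      unfold glueF
      have h1 : (Finset.univ.sup fun j : Fin m =>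
          Real.toNNReal (blk f g k (s j) (x - j * P)) : NNReal) ≤
          (Finset.univ.sup fun j : Fin m =>
          Real.toNNReal (blk f g k (s j) (y - j * P)) : NNReal) + Real.toNNReal |x - y| := by
        refine Finset.sup_le fun j _ => ?_
        have h2 : blk f g k (s j) (x - j * P) ≤ blk f g k (s j) (y - j * P) + |x - y| := by
          have := blk_lip f g hk (hs j).1 (hs j).2 (x - j * P) (y - j * P)
          have h3 : |x - j * P - (y - j * P)| = |x - y| := by congr 1; ring
          rw [h3] at this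
          linarith [le_abs_self (blk f g k (s j) (x - j * P) - blk f g k (s j) (y - j * P))]
        refine (Real.toNNReal_le_toNNReal h2).trans (Real.toNNReal_add_le.trans ?_)
        gcongr
        exact Finset.le_sup (f := fun j : Fin m => Real.toNNReal (blk f g k (s j) (y - j * P)))
          (Finset.mem_univ j)
      have h2 : ((Real.toNNReal |x - y| : NNReal) : ℝ) = |x - y| :=
        Real.coe_toNNReal _ (abs_nonneg _)
      rw [← h2]
      exact_mod_cast h1
    rw [abs_le]
    have h1 := key x y
    have h2 := key y x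
    rw [abs_sub_comm] at h2
    constructor <;> linarith

theorem glueF_window (f g : LipS) {k P : ℝ} (hk : 0 ≤ k) (hP : 2 * k + 1 ≤ P) {m : ℕ}
    {s : Fin m → ℝ} (hs : ∀ j, 0 ≤ s j ∧ s j ≤ 1) (j : Fin m) {x : ℝ} (hx : |x| ≤ k) :
    glueF f g k P s (x + j * P) = (1 - s j) * f.1 x + s j * g.1 x := by
  have hP0 : 0 < P := by linarith
  have hj : blk f g k (s j) (x + j * P - j * P) = (1 - s j) * f.1 x + s j * g.1 x := by
    rw [add_sub_cancel_right]
    unfold blk
    rw [cl_eq hx]
    simp
  have hnn : 0 ≤ (1 - s j) * f.1 x + s j * g.1 x :=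
    add_nonneg (mul_nonneg (by linarith [(hs j).2]) (f.2.1 x).1)
      (mul_nonneg (hs j).1 (g.2.1 x).1)
  have hsup : (Finset.univ.sup fun i : Fin m =>
      Real.toNNReal (blk f g k (s i) (x + j * P - i * P)) : NNReal) =
      Real.toNNReal (blk f g k (s j) (x + j * P - j * P)) := by
    refine le_antisymm (Finset.sup_le fun i _ => ?_)
      (Finset.le_sup (f := fun i : Fin m => Real.toNNReal (blk f g k (s i) (x + j * P - i * P)))
        (Finset.mem_univ j))
    by_cases hij : i = j
    · rw [hij]
    · have hdist : 1 ≤ |(j : ℝ) - (i : ℝ)| := by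
        have h1 : (j : ℤ) - (i : ℤ) ≠ 0 := by
          intro h
          apply hij
          have h2 : (i : ℕ) = (j : ℕ) := by omega
          exact Fin.ext h2
        have h2 : 1 ≤ |(j : ℤ) - (i : ℤ)| := Int.one_le_abs h1
        exact_mod_cast h2
      have hfar : k + 1 ≤ |x + j * P - i * P| := by
        have h1 : x + j * P - i * P = ((j : ℝ) - (i : ℝ)) * P + x := by ring
        rw [h1]
        have h2 : P ≤ |((j : ℝ) - (i : ℝ)) * P| := by
          rw [abs_mul, abs_of_pos hP0]
          nlinarith
        have h3 := abs_sub_abs_le_abs_sub (((j : ℝ) - (i : ℝ)) * P) (-x)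
        rw [sub_neg_eq_add, abs_neg] at h3
        linarith
      have h4 := blk_le f g (k := k) (hs i).1 (hs i).2 (x + j * P - i * P)
      have h5 := cl_far hk hfar
      rw [Real.toNNReal_of_nonpos (by linarith)]
      exact bot_le
  unfold glueF
  rw [hsup, hj, Real.coe_toNNReal _ hnn]

/-- the glued point; parameters are clamped to `[0,1]` -/
noncomputable def glue (f g : LipS) (k : ℕ) {m : ℕ} (s : Fin m → ℝ) : LipS :=
  ⟨glueF f g k (2 * k + 1) (fun j => max 0 (min 1 (s j))),
    glueF_mem f g (Nat.cast_nonneg k) fun j => ⟨le_max_left _ _,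
      max_le zero_le_one (min_le_left _ _)⟩⟩

theorem continuous_glue (f g : LipS) (k : ℕ) (m : ℕ) :
    Continuous (fun s : Fin m → ℝ => glue f g k s) := by
  refine Continuous.subtype_mk ?_ _
  refine continuous_pi fun t => ?_
  unfold glueF
  refine NNReal.continuous_coe.comp ?_
  have h : Continuous (Finset.univ.sup fun (j : Fin m) (s : Fin m → ℝ) =>
      Real.toNNReal (blk f g k (max 0 (min 1 (s j))) (t - j * (2 * k + 1)))) := by
    refine Continuous.finset_sup fun j _ => ?_
    refine continuous_real_toNNReal.comp ?_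
    unfold blk
    have hc : Continuous (fun s : Fin m → ℝ => max 0 (min 1 (s j))) :=
      continuous_const.max (continuous_const.min (continuous_apply j))
    exact (((continuous_const.sub hc).mul continuous_const).add
      (hc.mul continuous_const)).sub continuous_const
  refine h.congr fun s => ?_
  rw [Finset.sup_apply]

theorem glue_window (f g : LipS) (k : ℕ) {m : ℕ} {s : Fin m → ℝ}
    (hs : ∀ j, 0 ≤ s j ∧ s j ≤ 1) (j : Fin m) {x : ℝ} (hx : |x| ≤ k) :
    (glue f g k s).1 (x + j * (2 * k + 1)) = (1 - s j) * f.1 x + s j * g.1 x := by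
  have h : (fun j => max 0 (min 1 (s j))) = s := by
    funext i
    rw [min_eq_right (hs i).2, max_eq_right (hs i).1]
  show glueF f g k (2 * k + 1) (fun j => max 0 (min 1 (s j))) _ = _
  rw [h]
  exact glueF_window f g (Nat.cast_nonneg k) le_rfl hs j hx

/-- dependence on a window -/
theorem window_lemma (φ : LipS → ℝ) (hφ : Continuous φ) {ε : ℝ} (hε : 0 < ε) :
    ∃ k : ℕ, ∀ h h' : LipS, (∀ x : ℝ, |x| ≤ k → h.1 x = h'.1 x) → |φ h - φ h'| < ε := by
  by_contra hcon
  push Not at hcon
  let A : ℕ → Set (LipS × LipS) := fun k =>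
    {p | (∀ x : ℝ, |x| ≤ k → p.1.1 x = p.2.1 x) ∧ ε ≤ |φ p.1 - φ p.2|}
  have hcl : ∀ k, IsClosed (A k) := by
    intro k
    refine IsClosed.inter ?_ ?_
    · have : {p : LipS × LipS | ∀ x : ℝ, |x| ≤ k → p.1.1 x = p.2.1 x} =
          ⋂ x : ℝ, ⋂ _ : |x| ≤ k, {p : LipS × LipS | p.1.1 x = p.2.1 x} := by
        ext p; simp
      show IsClosed {p : LipS × LipS | ∀ x : ℝ, |x| ≤ k → p.1.1 x = p.2.1 x}
      rw [this]
      refine isClosed_iInter fun x => isClosed_iInter fun _ => isClosed_eq ?_ ?_
      · exact (continuous_apply x).comp (continuous_subtype_val.comp continuous_fst)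
      · exact (continuous_apply x).comp (continuous_subtype_val.comp continuous_snd)
    · exact isClosed_le continuous_const
        ((hφ.comp continuous_fst).sub (hφ.comp continuous_snd)).abs
  have hne : (⋂ i, A i).Nonempty := by
    refine IsCompact.nonempty_iInter_of_sequence_nonempty_isCompact_isClosed A ?_ ?_ ?_ hcl
    · intro i p hp
      refine ⟨fun x hx => hp.1 x (hx.trans ?_), hp.2⟩
      push_cast
      linarith
    · intro i
      obtain ⟨h, h', h1, h2⟩ := hcon i
      exact ⟨(h, h'), h1, h2⟩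
    · exact (hcl 0).isCompact
  obtain ⟨p, hp⟩ := hne
  rw [mem_iInter] at hp
  have heq : p.1 = p.2 := by
    apply Subtype.ext
    funext x
    obtain ⟨n, hn⟩ := exists_nat_ge |x|
    exact (hp n).1 x hn
  have := (hp 0).2
  rw [heq, sub_self, abs_zero] at this
  linarith

end Pool.H43.FlowEnt
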